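import Mathlib

/-! The automaton: definitions. -/

namespace Pool.Agent.Lib.MP_104326_lc

/-- The width of the region. -/
def wd (N : ℕ) : ℕ := 2 * N + 1

/-- The number of cells in the cut rows. -/
def cutN (N : ℕ) : ℕ := (2 * N + 1) * (2 * N + 2)

/-- The number of cells of the region. -/
def len (N h : ℕ) : ℕ := cutN N + cutN N * h

/-- The position of the origin. -/
def orgPos (N h r : ℕ) : ℕ :=
  if r = 0 then N + wd N * (N + 1) else cutN N + (N + wd N * N) * h + (h - r)

/-- The states: number of cells so far; last `h` letters; numbers of cells of the `h` heights; codes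
of the cells in the cut rows. -/
abbrev St : Type := (ℕ × List ℕ) × (List ℕ × List ℕ)

/-- Adjacent letters must be equal or one of them is `0`. -/
def compat (a b : ℕ) : Bool := decide (a = 0) || (decide (b = 0) || decide (a = b))

/-- The label of the cut cell `q`. -/
def gl (N : ℕ) (G : List ℕ) (q : ℕ) : ℕ :=
  ((List.range (N + 1)).map fun a => if q * (N + 1) + a ∈ G then a else 0).sum

/-- Whether the letter `a` may be read at the position `p < cutN N`. -/
def okCut (N h p : ℕ) (st : St) (a : ℕ) : Bool :=
  (decide (p % wd N = 0) || compat a (gl N st.2.2 (p - 1))) &&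
    (decide (a = 0) || (decide (st.1.1 + 1 ≤ N) && decide (st.2.2.length + 1 ≤ h)))

/-- Whether the letter `a` may be read at the position `cutN N + m`. -/
def okIn (N h m : ℕ) (st : St) (a : ℕ) : Bool :=
  (decide (m % h = 0) || compat a (st.1.2.getD 0 0)) &&
  ((decide ((m / h) % wd N = 0) || compat a (st.1.2.getD (h - 1) 0)) &&
  ((decide (m % h ≠ 0) || compat a (gl N st.2.2 (m / h))) &&
  ((decide (m % h + 1 ≠ h) || compat a (gl N st.2.2 (m / h + wd N))) &&
    (decide (a = 0) || (decide (st.1.1 + 1 ≤ N) && decide (st.2.1.getD (m % h) 0 + 1 ≤ N))))))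

/-- Whether the letter `a` may be read at the position `p` in the state `st`. -/
def ok (N h r p : ℕ) (st : St) (a : ℕ) : Bool :=
  (decide (p ≠ orgPos N h r) || decide (a = 1)) &&
    (if p < cutN N then okCut N h p st a else okIn N h (p - cutN N) st a)

/-- The next state after reading `a` at the position `p`. -/
def nxt (N h p : ℕ) (st : St) (a : ℕ) : St :=
  if p < cutN N then
    if a = 0 then st else ((st.1.1 + 1, st.1.2), (st.2.1, (p * (N + 1) + a) :: st.2.2))
  else
    ((if a = 0 then st.1.1 else st.1.1 + 1,
      (List.range h).map fun k => if k = 0 then a else st.1.2.getD (k - 1) 0),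
     ((List.range h).map fun k => if k = (p - cutN N) % h ∧ a ≠ 0 then st.2.1.getD k 0 + 1
        else st.2.1.getD k 0, st.2.2))

/-- The accepting states. -/
def acc (N h r : ℕ) (st : St) : Bool :=
  decide (st.1.1 = N) && (List.range h).all fun i =>
    decide (i + 1 + r ≤ h) || decide (h + 1 ≤ st.2.1.getD i 0)

/-- The initial state. -/
def start (h : ℕ) : St := ((0, List.replicate h 0), (List.replicate h 0, []))

/-- The number of accepted words of length `m` read from the state `st` at the position
`len N h - m`; the letters are `0, …, j`. -/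
def cnt (N h r j : ℕ) : ℕ → St → ℕ
  | 0, st => if acc N h r st then 1 else 0
  | m + 1, st => ((List.range (j + 1)).map fun a =>
      if ok N h r (len N h - (m + 1)) st a then
        cnt N h r j m (nxt N h (len N h - (m + 1)) st a) else 0).sum

/-- Acceptance of a word read from the position `p`. -/
def run (N h r : ℕ) : ℕ → St → List ℕ → Bool
  | _, st, [] => acc N h r st
  | p, st, a :: w => ok N h r p st a && run N h r (p + 1) (nxt N h p st a) w

/-- The words of length `m` over `0, …, B - 1`. -/
def words (B : ℕ) : ℕ → List (List ℕ)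
  | 0 => [[]]
  | m + 1 => (List.range B).flatMap fun a => (words B m).map fun w => a :: w

/-- The accepted words, as functions. -/
structure Good (N h r : ℕ) (x : ℕ → ℕ) : Prop where
  org : x (orgPos N h r) = 1
  hor0 : ∀ q < cutN N, q % wd N ≠ 0 → compat (x q) (x (q - 1)) = true
  ver : ∀ m < cutN N * h, m % h ≠ 0 → compat (x (cutN N + m)) (x (cutN N + m - 1)) = true
  hor : ∀ m < cutN N * h, (m / h) % wd N ≠ 0 →
    compat (x (cutN N + m)) (x (cutN N + m - h)) = true
  low : ∀ m < cutN N * h, m % h = 0 → compat (x (cutN N + m)) (x (m / h)) = true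
  upp : ∀ m < cutN N * h, m % h + 1 = h → m / h + wd N < cutN N →
    compat (x (cutN N + m)) (x (m / h + wd N)) = true
  few : ((Finset.range (cutN N)).filter fun q => x q ≠ 0).card ≤ h
  tot : ((Finset.range (len N h)).filter fun p => x p ≠ 0).card = N
  cls : ∀ i < h, h + 1 ≤ i + 1 + r →
    h + 1 ≤ ((Finset.range (cutN N * h)).filter fun m => m % h = i ∧ x (cutN N + m) ≠ 0).card

end Pool.Agent.Lib.MP_104326_lc
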