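import Pool.Agent.Lib.MP_104326_lc.Defs

/-! Auxiliary definitions (not used in the statement). -/

namespace Pool.Agent.Lib.MP_104326_lc

/-- The connected sets of `n` cells that contain the origin. -/
def Rooted (n : ℕ) (P : Finset (ℤ × ℤ)) : Prop := P.card = n ∧ Conn P ∧ (0, 0) ∈ P

/-- Their number. -/
noncomputable def c (n : ℕ) : ℕ := Nat.card {P : Finset (ℤ × ℤ) // Rooted n P}

instance (a b : ℤ × ℤ) : Decidable (Adj a b) := inferInstanceAs (Decidable (_ = _))

theorem adj_comm {a b : ℤ × ℤ} : Adj a b ↔ Adj b a := by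
  unfold Adj; rw [abs_sub_comm a.1, abs_sub_comm a.2]

theorem adj_add {a b v : ℤ × ℤ} : Adj (a + v) (b + v) ↔ Adj a b := by
  unfold Adj; simp

/-- `F` is a labelling of the cells of `S` with labels `1, …, j` (and `0` outside of `S`), adjacent
cells of `S` have equal labels, the origin has the label `1`. -/
def IsLab (S : Finset (ℤ × ℤ)) (j : ℕ) (F : ℤ × ℤ → ℕ) : Prop :=
  (∀ x, F x ≠ 0 ↔ x ∈ S) ∧ (∀ x, F x ≤ j) ∧ (∀ x ∈ S, ∀ y ∈ S, Adj x y → F x = F y) ∧ F (0, 0) = 1

/-- The number of cells of `S` in the rows with `y = q mod (h + 1)`. -/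
def inCls (h : ℕ) (S : Finset (ℤ × ℤ)) (q : ℕ) : ℕ :=
  (S.filter fun x => x.2 % ((h : ℤ) + 1) = q).card

/-- The region of the plane which is scanned by the automaton. -/
noncomputable def reg (N h r : ℕ) : Finset (ℤ × ℤ) :=
  Finset.Icc (-(N : ℤ)) N ×ˢ
    Finset.Ico ((r : ℤ) - ((h : ℤ) + 1) * (N + 1)) ((r : ℤ) + ((h : ℤ) + 1) * (N + 1))

/-- The sets of `N` cells of the region, containing the origin, such that `r` is the first class of
rows with at most `h` cells. -/
noncomputable def fam (N h r : ℕ) : Finset (Finset (ℤ × ℤ)) :=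
  (reg N h r).powerset.filter fun S => (0, 0) ∈ S ∧ S.card = N ∧ inCls h S r ≤ h ∧
    ∀ q ∈ Finset.range r, h < inCls h S q

end Pool.Agent.Lib.MP_104326_lc
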