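import Mathlib

/-! Polyominoes: the definitions. -/

namespace Pool.Agent.Lib.MP_104326_lc

/-- Two cells of the square lattice are adjacent if they share an edge. -/
def Adj (a b : ℤ × ℤ) : Prop := |a.1 - b.1| + |a.2 - b.2| = 1

/-- The set `P` of cells is connected under edge-adjacency. -/
def Conn (P : Finset (ℤ × ℤ)) : Prop :=
  ∀ a ∈ P, ∀ b ∈ P, Relation.ReflTransGen (fun x y => y ∈ P ∧ Adj x y) a b

/-- The `n`-ominoes: the connected sets of `n` cells. -/
abbrev Omino (n : ℕ) : Type := {P : Finset (ℤ × ℤ) // P.card = n ∧ Conn P}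

/-- `Q` is a translate of `P`. -/
def Translate {n : ℕ} (P Q : Omino n) : Prop := ∃ v : ℤ × ℤ, Q.1 = P.1.image (· + v)

/-- The number of fixed `n`-ominoes, that is, of classes of `n`-ominoes under translations. -/
noncomputable def t (n : ℕ) : ℕ := Nat.card (Quot (Translate (n := n)))

end Pool.Agent.Lib.MP_104326_lc
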